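import Mathlib
import Pool.Agent.Helper31.Pair

open Set MeasureTheory Pool.Agent.Helper31
open scoped ENNReal

namespace Pool.Agent.Results.MP_fe925f_an.NonHilbert

lemma prof_fX (s : ℝ) {t : ℝ} (ht : 0 ≤ t) :
    prof fX s t = (2 * s ^ 2 + t ^ 2) / (2 * √(s ^ 2 + t ^ 2)) := by
  unfold prof
  split_ifs with h0
  · subst h0
    have e1 : √(s ^ 2 + 0 ^ 2) = |s| := by
      rw [← Real.sqrt_sq_eq_abs]; congr 1; ring
    rw [e1]
    rcases eq_or_ne s 0 with h | h
    · simp [h]
    · have h1 : |s| ≠ 0 := abs_ne_zero.2 h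
      field_simp
      rw [sq_abs]
      ring
  · have htp : 0 < t := lt_of_le_of_ne ht (Ne.symm h0)
    unfold fX wX
    have e1 : √(s ^ 2 + t ^ 2) = t * √(1 + (s / t) ^ 2) := by
      have e2 : s ^ 2 + t ^ 2 = t ^ 2 * (1 + (s / t) ^ 2) := by field_simp; ring
      rw [e2, Real.sqrt_mul (by positivity), Real.sqrt_sq ht]
    rw [e1]
    have h2 : 0 < √(1 + (s / t) ^ 2) := by positivity
    field_simp

lemma prof_fX_lower (s : ℝ) {t : ℝ} (ht : 0 ≤ t) : √(s ^ 2 + t ^ 2) ≤ 2 * prof fX s t := by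
  rw [prof_fX s ht]
  rcases eq_or_lt_of_le (Real.sqrt_nonneg (s ^ 2 + t ^ 2)) with h | h
  · rw [← h]; simp
  · have h2 := Real.sq_sqrt (show 0 ≤ s ^ 2 + t ^ 2 by positivity)
    rw [mul_div_assoc', le_div_iff₀ (by positivity)]
    nlinarith [sq_nonneg s]

/-- The duality inequality between the two profile norms. -/
lemma duality_le (σ a : ℝ) {τ b : ℝ} (hτ : 0 ≤ τ) (hb : 0 ≤ b) :
    |σ| * |a| + τ * b ≤ prof fS σ τ * prof fX a b := by
  rw [prof_fX a hb]
  set r := √(a ^ 2 + b ^ 2) with hr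
  have hr0 : 0 ≤ r := Real.sqrt_nonneg _
  have hr2 : r ^ 2 = a ^ 2 + b ^ 2 := Real.sq_sqrt (by positivity)
  have haa : |a| ^ 2 = a ^ 2 := sq_abs a
  have ha0 := abs_nonneg a
  rcases eq_or_lt_of_le hr0 with h0 | hrp
  · have h1 : a ^ 2 + b ^ 2 = 0 := by rw [← hr2, ← h0]; ring
    have ha : a = 0 := by nlinarith [sq_nonneg a, sq_nonneg b]
    have hb' : b = 0 := by nlinarith [sq_nonneg a, sq_nonneg b]
    simp [ha, hb']
  unfold prof
  split_ifs with ht0
  · rw [ht0, zero_mul, add_zero]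
    apply mul_le_mul_of_nonneg_left _ (abs_nonneg σ)
    rw [le_div_iff₀ (by positivity)]
    nlinarith [sq_nonneg (|a| - r)]
  · have htp : 0 < τ := lt_of_le_of_ne hτ (Ne.symm ht0)
    have e1 : fS (σ / τ) = fS (|σ| / τ) := by
      rcases le_total 0 σ with h | h
      · rw [abs_of_nonneg h]
      · rw [abs_of_nonpos h, neg_div, profS.f_even]
    rw [e1]
    set y := |σ| / τ with hy
    have hy0 : 0 ≤ y := by positivity
    have hcub := sv_cubic y
    set s := sv y with hs
    have hs0 : 0 ≤ s := by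
      rcases eq_or_lt_of_le hy0 with h | h
      · have h2 : 2 * s ^ 3 + 3 * s = 0 := by rw [hcub, ← h]
        nlinarith [sq_nonneg s, mul_self_nonneg s]
      · exact (sv_pos h).le
    have hw := wS_pos y
    have hw2 := wS_sq y
    rw [← hs] at hw2
    unfold fS
    set w := wS y with hwd
    have hσ : |σ| = τ * (2 * s ^ 3 + 3 * s) := by rw [hcub, hy]; field_simp
    rw [hσ]
    have hmain : (2 * s ^ 3 + 3 * s) * |a| + b ≤ w ^ 3 * ((2 * a ^ 2 + b ^ 2) / r) := by
      have h1 : s * |a| + b ≤ w * r := by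
        have h2 : (s * |a| + b) ^ 2 ≤ (w * r) ^ 2 := by
          rw [mul_pow, hw2, hr2]
          nlinarith [sq_nonneg (s * b - |a|), haa]
        exact le_of_sq_le_sq h2 (by positivity)
      have h3 : 2 * s * w ^ 2 * |a| ≤ w ^ 3 * (a ^ 2 / r) + s ^ 2 * w * r := by
        have h4 : w ^ 3 * (a ^ 2 / r) + s ^ 2 * w * r - 2 * s * w ^ 2 * |a| =
            w / r * (w * |a| - s * r) ^ 2 := by
          field_simp
          rw [← haa]
          ring
        have h5 : 0 ≤ w / r * (w * |a| - s * r) ^ 2 := by positivity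
        linarith
      have h6 : w ^ 3 * ((2 * a ^ 2 + b ^ 2) / r) = w ^ 3 * (a ^ 2 / r) + w ^ 3 * r := by
        have : 2 * a ^ 2 + b ^ 2 = a ^ 2 + r ^ 2 := by rw [hr2]; ring
        rw [this]
        field_simp
      have h7 : w ^ 3 * r = s ^ 2 * w * r + w * r := by
        have : w ^ 3 = w * w ^ 2 := by ring
        rw [this, hw2]; ring
      have h8 : (2 * s ^ 3 + 3 * s) * |a| = 2 * s * w ^ 2 * |a| + s * |a| := by
        rw [hw2]; ring
      rw [h6, h7, h8]
      linarith
    calc τ * (2 * s ^ 3 + 3 * s) * |a| + τ * b = τ * ((2 * s ^ 3 + 3 * s) * |a| + b) := by ring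
      _ ≤ τ * (w ^ 3 * ((2 * a ^ 2 + b ^ 2) / r)) := by gcongr
      _ = τ * (2 * w ^ 3) * ((2 * a ^ 2 + b ^ 2) / (2 * r)) := by field_simp

/-- Equality case of the duality. -/
lemma duality_eq (σ : ℝ) {τ : ℝ} (hτ : 0 < τ) :
    σ * sv (σ / τ) + τ = prof fS σ τ * prof fX (sv (σ / τ)) 1 := by
  rw [prof_fX _ zero_le_one]
  unfold prof
  rw [if_neg hτ.ne']
  have hcub := sv_cubic (σ / τ)
  have hw := wS_pos (σ / τ)
  have hw2 := wS_sq (σ / τ)
  have e1 : √(sv (σ / τ) ^ 2 + 1 ^ 2) = wS (σ / τ) := by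
    unfold wS; congr 1; ring
  rw [e1]
  unfold fS
  have hσ : σ = τ * (σ / τ) := by field_simp
  generalize hs : sv (σ / τ) = s at *
  generalize hwd : wS (σ / τ) = w at *
  rw [← hcub] at hσ
  have e2 : τ * (2 * w ^ 3) * ((2 * s ^ 2 + 1 ^ 2) / (2 * w)) = τ * w ^ 2 * (2 * s ^ 2 + 1) := by
    field_simp
  rw [e2, hw2]
  nth_rw 1 [hσ]
  ring

theorem result.{u} : ∃ (X : Type) (_ : NormedAddCommGroup X) (_ : NormedSpace ℝ X),
    CompleteSpace X ∧ ¬ FiniteDimensional ℝ X ∧
    Nonempty (X →ₗᵢ[ℝ] Lp ℝ 1 ((volume : Measure ℝ).restrict (Icc (0:ℝ) 1))) ∧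
    Nonempty (StrongDual ℝ X →ₗᵢ[ℝ] Lp ℝ 1 ((volume : Measure ℝ).restrict (Icc (0:ℝ) 1))) ∧
    ∀ (H : Type u) [NormedAddCommGroup H] [InnerProductSpace ℝ H], IsEmpty (X ≃ₗᵢ[ℝ] H) := by
  let H := lp (fun _ : ℕ => ℝ) 2
  let b : HilbertBasis ℕ ℝ H := default
  obtain ⟨J, hJ⟩ := embedX b
  obtain ⟨K, hK⟩ := embedS b
  have hb0 : ‖b 0‖ = 1 := b.orthonormal.1 0
  -- lower bound
  have hlow : ∀ p : ℝ × H, ‖p‖ ≤ (2 : NNReal) * ‖J p‖ := by
    rintro ⟨s, h⟩
    rw [hJ]
    have h1 := prof_fX_lower s (norm_nonneg h)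
    refine le_trans ?_ h1
    rw [Prod.norm_mk]
    apply max_le
    · apply Real.le_sqrt_of_sq_le
      rw [Real.norm_eq_abs, sq_abs]
      nlinarith [sq_nonneg ‖h‖]
    · apply Real.le_sqrt_of_sq_le
      nlinarith [sq_nonneg s]
  have hanti : AntilipschitzWith 2 J := J.antilipschitz_of_bound hlow
  have hclosed : IsClosed (range J) := hanti.isClosed_range J.uniformContinuous
  have hinj : Function.Injective J := hanti.injective
  let X : Submodule ℝ (Lp ℝ 1 ((volume : Measure ℝ).restrict (Icc (0:ℝ) 1))) :=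
    LinearMap.range (J : ℝ × H →ₗ[ℝ] Lp ℝ 1 ((volume : Measure ℝ).restrict (Icc (0:ℝ) 1)))
  let JX : ℝ × H →L[ℝ] X := J.codRestrict X (fun p => ⟨p, rfl⟩)
  have hJXn : ∀ s h, ‖JX (s, h)‖ = prof fX s ‖h‖ := fun s h => hJ s h
  have hsurj : ∀ x : X, ∃ p : ℝ × H, JX p = x := by
    rintro ⟨x, p, hp⟩
    exact ⟨p, Subtype.ext hp⟩
  have hJXinj : Function.Injective JX := by
    intro p p' h
    exact hinj (congrArg Subtype.val h)
  refine ⟨X, inferInstance, inferInstance, ?_, ?_, ⟨X.subtypeₗᵢ⟩, ?_, ?_⟩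
  · exact hclosed.completeSpace_coe
  · intro hfin
    have h1 : FiniteDimensional ℝ (ℝ × H) :=
      FiniteDimensional.of_injective (JX : ℝ × H →ₗ[ℝ] X) hJXinj
    have h2 : FiniteDimensional ℝ H :=
      FiniteDimensional.of_surjective (LinearMap.snd ℝ ℝ H) LinearMap.snd_surjective
    have h3 : Finite ℕ := b.orthonormal.linearIndependent.finite_of_isNoetherian
    exact not_finite ℕ
  · -- the dual space
    let T : StrongDual ℝ X →ₗ[ℝ] ℝ × H :=
      { toFun := fun φ => (φ (JX (1, 0)), (InnerProductSpace.toDual ℝ H).symm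
          ((φ.comp JX).comp (ContinuousLinearMap.inr ℝ ℝ H)))
        map_add' := by
          intro φ ψ
          ext1
          · simp
          · simp only [Prod.snd_add, ← map_add]
            congr 1
        map_smul' := by
          intro c φ
          ext1
          · simp
          · simp only [Prod.smul_snd, RingHom.id_apply]
            rw [← (InnerProductSpace.toDual ℝ H).symm.map_smul]
            congr 1 }
    have hT : ∀ (φ : StrongDual ℝ X) (s : ℝ) (h : H),
        φ (JX (s, h)) = (T φ).1 * s + inner ℝ (T φ).2 h := by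
      intro φ s h
      have h1 : inner ℝ (T φ).2 h = φ (JX (0, h)) := by
        simp only [T, LinearMap.coe_mk, AddHom.coe_mk]
        rw [InnerProductSpace.toDual_symm_apply]
        rfl
      have h2 : ((s, h) : ℝ × H) = s • ((1, 0) : ℝ × H) + (0, h) := by
        ext1 <;> simp
      rw [h1, h2, map_add, map_add, map_smul, map_smul]
      simp only [T, LinearMap.coe_mk, AddHom.coe_mk, smul_eq_mul]
      ring
    have hnorm : ∀ φ : StrongDual ℝ X, ‖φ‖ = prof fS (T φ).1 ‖(T φ).2‖ := by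
      intro φ
      have hNnn : 0 ≤ prof fS (T φ).1 ‖(T φ).2‖ := by
        rw [← hK]; exact norm_nonneg _
      apply le_antisymm
      · apply ContinuousLinearMap.opNorm_le_bound _ hNnn
        intro x
        obtain ⟨⟨s, h⟩, rfl⟩ := hsurj x
        rw [hT, hJXn]
        have h1 := duality_le (T φ).1 s (norm_nonneg (T φ).2) (norm_nonneg h)
        refine le_trans ?_ h1
        refine le_trans (norm_add_le _ _) ?_
        rw [norm_mul, Real.norm_eq_abs, Real.norm_eq_abs]
        have h2 := norm_inner_le_norm (𝕜 := ℝ) (T φ).2 h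
        linarith
      · rcases eq_or_lt_of_le (norm_nonneg (T φ).2) with h0 | h0
        · have h1 : prof fS (T φ).1 ‖(T φ).2‖ = |(T φ).1| := by
            unfold prof
            rw [if_pos h0.symm]
          have h2 := φ.le_opNorm (JX (1, 0))
          rw [hT, hJXn, inner_zero_right, norm_zero, prof_fX 1 le_rfl] at h2
          rw [h1]
          norm_num at h2
          exact h2
        · set τ := ‖(T φ).2‖ with hτ
          set s' := sv ((T φ).1 / τ) with hs'
          have h1 := duality_eq (T φ).1 h0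
          have h2 := φ.le_opNorm (JX (s', τ⁻¹ • (T φ).2))
          have h3 : ‖τ⁻¹ • (T φ).2‖ = 1 := by
            rw [norm_smul, norm_inv, hτ, norm_norm]
            exact inv_mul_cancel₀ h0.ne'
          rw [hT, hJXn, h3, inner_smul_right, real_inner_self_eq_norm_sq, ← hτ] at h2
          have h4 : τ⁻¹ * τ ^ 2 = τ := by field_simp
          rw [h4, h1] at h2
          have h5 : 0 < prof fX s' 1 := by
            rw [prof_fX _ zero_le_one]; positivity
          have h6 := le_trans (Real.le_norm_self _) h2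
          exact le_of_mul_le_mul_right h6 h5
    exact ⟨{ toLinearMap := (K : ℝ × H →ₗ[ℝ] _).comp T
             norm_map' := by
              intro φ
              rw [hnorm φ, LinearMap.comp_apply, ContinuousLinearMap.coe_coe]
              exact hK _ _ }⟩
  · intro H' _ _
    refine ⟨fun e => ?_⟩
    have hpar := parallelogram_law_with_norm ℝ (e (JX (1, 0))) (e (JX (0, b 0)))
    rw [← map_add, ← map_sub, ← map_add, ← map_sub] at hpar
    simp only [LinearIsometryEquiv.norm_map, Prod.mk_add_mk, Prod.mk_sub_mk, hJXn, add_zero,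
      zero_add, sub_zero, zero_sub, norm_neg, hb0, norm_zero] at hpar
    have e1 : prof fX 1 1 = 3 / (2 * √2) := by
      rw [prof_fX 1 zero_le_one]; norm_num
    have e2 : prof fX 1 0 = 1 := by
      rw [prof_fX 1 le_rfl]; norm_num
    have e3 : prof fX 0 1 = 1 / 2 := by
      rw [prof_fX 0 zero_le_one]; norm_num
    rw [e1, e2, e3] at hpar
    have h2 : (√2 : ℝ) * √2 = 2 := Real.mul_self_sqrt (by norm_num)
    have h3 : 3 / (2 * √2) * (3 / (2 * √2)) = (9 / 8 : ℝ) := by
      rw [div_mul_div_comm]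
      have : 2 * √2 * (2 * √2) = (8:ℝ) := by nlinarith
      rw [this]; norm_num
    nlinarith

end Pool.Agent.Results.MP_fe925f_an.NonHilbert
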